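import Pool.Agent.Helper21.KG.Pigeon
import Pool.Agent.Helper33.KN.Defs

/-!
# The numbers of `w ^ (r ^ e) = f(x_1, …, x_m)` (project K')
-/

set_option autoImplicit false

namespace Pool.Agent.Helper21.KG

open Pool.Agent.Helper79.KN Pool.Agent.Helper33.KN

theorem meetSpec : MeetSpec := by
  intro m a r e hr he ha hg hra hsum
  obtain ⟨h1, h2⟩ := meet_spec (e := e) a hr ha hg hra hsum
  have hlt : ∀ u : {u : ℕ // 0 < u ∧ 2 * u < r ^ e}, u.1 < r ^ e := fun u => by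
    have := u.2.2
    omega
  have hq : ∀ b : Bool, (if b then (0 : ℤ) else m) = 0 ∨ (if b then (0 : ℤ) else m) = m := by
    intro b
    cases b
    · exact Or.inr rfl
    · exact Or.inl rfl
  have hz : ∀ (t : {t : ℕ // Nat.Coprime t r}) (i : {u : ℕ // 0 < u ∧ 2 * u < r ^ e} × Bool),
      hzero (fun (t : {t : ℕ // Nat.Coprime t r}) (u : {u : ℕ // 0 < u ∧ 2 * u < r ^ e}) q =>
        spec a (r ^ e) (t.1 * u.1 % r ^ e) q) m t i =
      spec a (r ^ e) (t.1 * i.1.1 % r ^ e) (if i.2 then (0 : ℤ) else m) := by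
    rintro t ⟨u, b⟩
    cases b
    · rfl
    · rfl
  constructor
  · intro i j _
    obtain ⟨t, ht, h3, h4⟩ := h1 i.1.1 j.1.1 _ _ i.1.2.1 (hlt i.1) j.1.2.1 (hlt j.1) (hq i.2) (hq j.2)
    exact ⟨⟨t, ht⟩, by rw [hz]; exact h3, by rw [hz]; exact h4⟩
  · intro i
    obtain ⟨t, ht, h3⟩ := h2 i.1.1 _ i.1.2.1 (hlt i.1) (hq i.2)
    exact ⟨⟨t, ht⟩, by rw [hz]; exact h3⟩

end Pool.Agent.Helper21.KG
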