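import Pool.Agent.Helper21.KG.Pow
import Pool.Agent.Helper73.KT.Defs

/-!
# The numbers of `w ^ (r ^ e) = f(x_1, …, x_m)` for tensor powers (project K'', block B10)
-/

set_option autoImplicit false

namespace Pool.Agent.Helper21.KG

open Pool.Agent.Helper79.KN Pool.Agent.Helper33.KN Pool.Agent.Helper73.KT

theorem meetSpec_ten : Pool.Agent.Helper73.KT.MeetSpec := by
  classical
  intro m a r e ι _ hr he hm ha i
  have hlt : ∀ u : {u : ℕ // 0 < u ∧ 2 * u < r ^ e}, u.1 < r ^ e := fun u => by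
    have := u.2.2
    omega
  have hz : ∀ (t : {t : ℕ // Nat.Coprime t r}) (i : {u : ℕ // 0 < u ∧ 2 * u < r ^ e} × Bool),
      hzero (fun (t : {t : ℕ // Nat.Coprime t r}) (u : {u : ℕ // 0 < u ∧ 2 * u < r ^ e}) q =>
        spec a (r ^ e) (t.1 * u.1 % r ^ e) q) m t i =
      spec a (r ^ e) (t.1 * i.1.1 % r ^ e) (if i.2 then (0 : ℤ) else m) := by
    rintro t ⟨u, b⟩
    cases b
    · rfl
    · rfl
  rcases Nat.eq_zero_or_pos (Fintype.card ι) with h0 | h0
  · have : IsEmpty ι := Fintype.card_eq_zero_iff.1 h0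
    refine ⟨⟨1, Nat.coprime_one_left r⟩, fun l => ?_⟩
    rw [Finset.univ_eq_empty, Finset.filter_empty, Finset.card_empty]
    exact Nat.zero_le _
  · obtain ⟨t, ht, h1⟩ := meet_pow a hm hr he h0 ha
      (fun j => (i ((Fintype.equivFin ι).symm j)).1.1) (fun j => (i ((Fintype.equivFin ι).symm j)).2)
      (fun j => (i ((Fintype.equivFin ι).symm j)).1.2.1) (fun j => hlt _)
    refine ⟨⟨t, ht⟩, fun l => ?_⟩
    by_cases h : ∃ b, i b = l
    · obtain ⟨b, rfl⟩ := h
      have h2 := h1 (Fintype.equivFin ι b)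
      rw [Equiv.symm_apply_apply] at h2
      rw [hz]
      exact (Finset.card_le_univ _).trans h2
    · push Not at h
      rw [Finset.filter_false_of_mem fun b _ => h b, Finset.card_empty]
      exact Nat.zero_le _

end Pool.Agent.Helper21.KG
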