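import Pool.Agent.Helper79.KN.Defs

/-!
# The numbers `spec`: a common conjugate with a part of top slope (project K', block of helper21)
-/

set_option autoImplicit false

namespace Pool.Agent.Helper21.KG

open Pool.Agent.Helper79.KN

variable {m : ℕ} (a : Fin m → ℕ)

theorem spec_zero_pos (ha : ∀ k, 1 < a k) (N s : ℕ) (hs : ∑ k, (1 : ℚ) / a k + s / N < 1) :
    0 < spec a N s 0 := by
  unfold spec
  rw [Finset.card_pos]
  refine ⟨fun _ => 1, ?_⟩
  rw [Finset.mem_filter, Fintype.mem_piFinset]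
  refine ⟨fun k => Finset.mem_Ioo.2 ⟨one_pos, ha k⟩, ?_⟩
  rw [Int.floor_eq_zero_iff, Set.mem_Ico]
  simp only [Nat.cast_one]
  refine ⟨?_, hs⟩
  have h1 : 0 ≤ ∑ k, (1 : ℚ) / a k := Finset.sum_nonneg fun k _ => by positivity
  positivity

theorem spec_top_pos (ha : ∀ k, 1 < a k) (N s : ℕ) (hN : s < N)
    (hs : ∑ k, (1 : ℚ) / a k ≤ s / N) : 0 < spec a N s m := by
  unfold spec
  rw [Finset.card_pos]
  refine ⟨fun k => a k - 1, ?_⟩
  rw [Finset.mem_filter, Fintype.mem_piFinset]
  refine ⟨fun k => Finset.mem_Ioo.2 ⟨Nat.sub_pos_of_lt (ha k), Nat.sub_lt (by have := ha k; omega) one_pos⟩, ?_⟩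
  have h1 : ∀ k, ((a k - 1 : ℕ) : ℚ) / a k = 1 - 1 / a k := by
    intro k
    have h0 : (a k : ℚ) ≠ 0 := by
      have := ha k
      exact_mod_cast (by omega : a k ≠ 0)
    rw [Nat.cast_sub (ha k).le, Nat.cast_one, sub_div, div_self h0]
  rw [Finset.sum_congr rfl fun k _ => h1 k, Finset.sum_sub_distrib, Finset.sum_const,
    Finset.card_univ, Fintype.card_fin, nsmul_eq_mul, mul_one, Int.floor_eq_iff]
  have h2 : (s : ℚ) / N < 1 := by
    rw [div_lt_one (by exact_mod_cast (Nat.zero_le s).trans_lt hN)]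
    exact_mod_cast hN
  have h3 : 0 ≤ ∑ k, (1 : ℚ) / a k := Finset.sum_nonneg fun k _ => by positivity
  constructor
  · push_cast
    linarith
  · push_cast
    linarith

theorem spec_zero_two (ha : ∀ k, 2 < a k) (hm : 0 < m) (N s : ℕ)
    (hs : 2 * ∑ k, (1 : ℚ) / a k + s / N < 1) : 2 ≤ spec a N s 0 := by
  classical
  unfold spec
  let k₀ : Fin m := ⟨0, hm⟩
  have h3 : 0 ≤ ∑ k, (1 : ℚ) / a k := Finset.sum_nonneg fun k _ => by positivity
  have h5 : (1 : ℚ) / a k₀ ≤ ∑ k, (1 : ℚ) / a k :=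
    Finset.single_le_sum (f := fun k => (1 : ℚ) / a k) (fun k _ => by positivity) (Finset.mem_univ k₀)
  have hne : (fun _ => 1 : Fin m → ℕ) ≠ Function.update (fun _ => 1) k₀ 2 := by
    intro h
    have := congrFun h k₀
    rw [Function.update_self] at this
    omega
  rw [← Finset.card_pair hne]
  refine Finset.card_le_card ?_
  intro i hi
  rw [Finset.mem_insert, Finset.mem_singleton] at hi
  rw [Finset.mem_filter, Fintype.mem_piFinset, Int.floor_eq_zero_iff, Set.mem_Ico]
  have hsn : (0 : ℚ) ≤ s / N := by positivity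
  rcases hi with rfl | rfl
  · refine ⟨fun k => Finset.mem_Ioo.2 ⟨one_pos, lt_trans one_lt_two (ha k)⟩, ?_, ?_⟩
    · simp only [Nat.cast_one]
      linarith
    · simp only [Nat.cast_one]
      linarith
  · have h4 : ∑ k, ((Function.update (fun _ => 1 : Fin m → ℕ) k₀ 2 k : ℕ) : ℚ) / a k =
        ∑ k, (1 : ℚ) / a k + 1 / a k₀ := by
      rw [← Finset.add_sum_erase _ _ (Finset.mem_univ k₀),
        ← Finset.add_sum_erase (a := k₀) _ (fun k => (1 : ℚ) / a k) (Finset.mem_univ k₀),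
        Function.update_self]
      have h6 : ∑ k ∈ Finset.univ.erase k₀, ((Function.update (fun _ => 1 : Fin m → ℕ) k₀ 2 k : ℕ) : ℚ) / a k =
          ∑ k ∈ Finset.univ.erase k₀, (1 : ℚ) / a k := by
        refine Finset.sum_congr rfl fun k hk => ?_
        rw [Function.update_of_ne (Finset.ne_of_mem_erase hk), Nat.cast_one]
      rw [h6]
      push_cast
      ring
    refine ⟨fun k => Finset.mem_Ioo.2 ?_, ?_, ?_⟩
    · by_cases hk : k = k₀
      · subst hk
        rw [Function.update_self]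
        exact ⟨two_pos, ha _⟩
      · rw [Function.update_of_ne hk]
        exact ⟨one_pos, lt_trans one_lt_two (ha k)⟩
    · rw [h4]
      positivity
    · rw [h4]
      linarith

theorem spec_symm (ha : ∀ k, 1 < a k) (r e : ℕ) (hr : r.Prime) (hra : ∀ k, ¬ r ∣ a k) (s : ℕ)
    (hs : 0 < s) (hsN : s < r ^ e) (q : ℤ) :
    spec a (r ^ e) (r ^ e - s) (m - q) = spec a (r ^ e) s q := by
  classical
  have hN0 : ((r ^ e : ℕ) : ℚ) ≠ 0 := by
    have := pow_pos hr.pos e
    exact_mod_cast this.ne'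
  -- the sums are no integers
  have hnot : ∀ (i : Fin m → ℕ) (z : ℤ), ∑ k, (i k : ℚ) / a k + (s : ℚ) / (r ^ e : ℕ) ≠ z := by
    intro i z h
    have hA : (∏ k, a k : ℕ) ≠ 0 := Finset.prod_ne_zero_iff.2 fun k _ => by have := ha k; omega
    have h1 : ((∏ k, a k : ℕ) : ℚ) * ∑ k, (i k : ℚ) / a k =
        ((∑ k, i k * ∏ l ∈ Finset.univ.erase k, a l : ℕ) : ℚ) := by
      rw [Finset.mul_sum]
      push_cast
      refine Finset.sum_congr rfl fun k _ => ?_
      rw [← Finset.mul_prod_erase _ _ (Finset.mem_univ k)]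
      have h0 : (a k : ℚ) ≠ 0 := by
        have := ha k
        exact_mod_cast (by omega : a k ≠ 0)
      field_simp
    set A := ∏ k, a k with hAdef
    set P := ∑ k, i k * ∏ l ∈ Finset.univ.erase k, a l with hP
    have h2 : ((r ^ e : ℕ) : ℚ) * P + A * s = A * (r ^ e : ℕ) * z := by
      have h3 : (A : ℚ) * (∑ k, (i k : ℚ) / a k + (s : ℚ) / (r ^ e : ℕ)) = A * z := by rw [h]
      rw [mul_add, h1] at h3
      have h4 : (A : ℚ) * ((s : ℚ) / (r ^ e : ℕ)) * (r ^ e : ℕ) = A * s := by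
        rw [mul_assoc, div_mul_cancel₀ _ hN0]
      linear_combination ((r ^ e : ℕ) : ℚ) * h3 - h4
    have h5 : ((r ^ e : ℕ) : ℤ) * P + A * s = A * (r ^ e : ℕ) * z := by exact_mod_cast h2
    have h6 : ((r ^ e : ℕ) : ℤ) ∣ ((A * s : ℕ) : ℤ) := by
      refine ⟨A * z - P, ?_⟩
      push_cast at h5 ⊢
      linear_combination h5
    have h7 : r ^ e ∣ A * s := Int.natCast_dvd_natCast.1 h6
    have h8 : (r ^ e).Coprime A := by
      refine Nat.Coprime.pow_left e ?_
      rw [hAdef]
      refine Nat.Coprime.prod_right fun k _ => ?_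
      exact (Nat.Prime.coprime_iff_not_dvd hr).2 (hra k)
    have h9 := Nat.le_of_dvd hs (h8.dvd_of_dvd_mul_left h7)
    omega
  unfold spec
  refine Finset.card_bij (fun i _ => fun k => a k - i k) ?_ ?_ ?_
  · intro i hi
    rw [Finset.mem_filter, Fintype.mem_piFinset] at hi ⊢
    obtain ⟨h1, h2⟩ := hi
    have h1' : ∀ k, 0 < i k ∧ i k < a k := fun k => Finset.mem_Ioo.1 (h1 k)
    refine ⟨fun k => Finset.mem_Ioo.2 ⟨Nat.sub_pos_of_lt (h1' k).2, by have := h1' k; omega⟩, ?_⟩
    have h3 : ∑ k, ((a k - i k : ℕ) : ℚ) / a k + (s : ℚ) / (r ^ e : ℕ) =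
        m + 1 - (∑ k, (i k : ℚ) / a k + ((r ^ e - s : ℕ) : ℚ) / (r ^ e : ℕ)) := by
      have h4 : ∀ k, ((a k - i k : ℕ) : ℚ) / a k = 1 - i k / a k := by
        intro k
        have h0 : (a k : ℚ) ≠ 0 := by
          have := ha k
          exact_mod_cast (by omega : a k ≠ 0)
        rw [Nat.cast_sub (h1' k).2.le, sub_div, div_self h0]
      rw [Finset.sum_congr rfl fun k _ => h4 k, Finset.sum_sub_distrib, Finset.sum_const,
        Finset.card_univ, Fintype.card_fin, nsmul_eq_mul, mul_one, Nat.cast_sub hsN.le, sub_div,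
        div_self hN0]
      ring
    rw [Int.floor_eq_iff] at h2 ⊢
    have h5 := hnot (fun k => a k - i k) q
    have h6 := hnot (fun k => a k - i k) (q + 1)
    rw [h3] at h5 h6 ⊢
    push_cast at h2 h5 h6 ⊢
    refine ⟨?_, ?_⟩
    · linarith [h2.2]
    · refine lt_of_le_of_ne ?_ h6
      linarith [h2.1]
  · intro i hi i' hi' h
    rw [Finset.mem_filter, Fintype.mem_piFinset] at hi hi'
    funext k
    have h1 := congrFun h k
    have h2 := Finset.mem_Ioo.1 (hi.1 k)
    have h3 := Finset.mem_Ioo.1 (hi'.1 k)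
    change a k - i k = a k - i' k at h1
    omega
  · intro i hi
    rw [Finset.mem_filter, Fintype.mem_piFinset] at hi
    obtain ⟨h1, h2⟩ := hi
    have h1' : ∀ k, 0 < i k ∧ i k < a k := fun k => Finset.mem_Ioo.1 (h1 k)
    refine ⟨fun k => a k - i k, ?_, ?_⟩
    · rw [Finset.mem_filter, Fintype.mem_piFinset]
      refine ⟨fun k => Finset.mem_Ioo.2 ⟨Nat.sub_pos_of_lt (h1' k).2, by have := h1' k; omega⟩, ?_⟩
      have h3 : ∑ k, ((a k - i k : ℕ) : ℚ) / a k + ((r ^ e - s : ℕ) : ℚ) / (r ^ e : ℕ) =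
          m + 1 - (∑ k, (i k : ℚ) / a k + (s : ℚ) / (r ^ e : ℕ)) := by
        have h4 : ∀ k, ((a k - i k : ℕ) : ℚ) / a k = 1 - i k / a k := by
          intro k
          have h0 : (a k : ℚ) ≠ 0 := by
            have := ha k
            exact_mod_cast (by omega : a k ≠ 0)
          rw [Nat.cast_sub (h1' k).2.le, sub_div, div_self h0]
        rw [Finset.sum_congr rfl fun k _ => h4 k, Finset.sum_sub_distrib, Finset.sum_const,
          Finset.card_univ, Fintype.card_fin, nsmul_eq_mul, mul_one, Nat.cast_sub hsN.le, sub_div,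
          div_self hN0]
        ring
      rw [Int.floor_eq_iff] at h2 ⊢
      have h5 := hnot i q
      rw [h3]
      push_cast at h2 h5 ⊢
      refine ⟨?_, ?_⟩
      · linarith [h2.2]
      · have h6 : (q : ℚ) < ∑ k, (i k : ℚ) / a k + (s : ℚ) / (r ^ e : ℕ) := by
          push_cast
          exact lt_of_le_of_ne h2.1 (Ne.symm h5)
        push_cast at h6
        linarith
    · funext k
      have := h1' k
      change a k - (a k - i k) = i k
      omega

theorem neg_mod {N x : ℕ} (hN : 0 < N) (hx : x % N ≠ 0) : (N - 1) * x % N = N - x % N := by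
  have h1 : (N - 1) * x + x = N * x := by
    rw [Nat.sub_mul, one_mul, Nat.sub_add_cancel (Nat.le_mul_of_pos_left _ hN)]
  have h2 : N ∣ (N - 1) * x % N + x % N := by
    rw [Nat.dvd_iff_mod_eq_zero, ← Nat.add_mod, h1, Nat.mul_mod_right]
  have h3 := Nat.mod_lt ((N - 1) * x) hN
  have h4 := Nat.mod_lt x hN
  obtain ⟨c, hc⟩ := h2
  have h5 : c = 1 := by
    have h6 : 0 < c := by
      rcases Nat.eq_zero_or_pos c with h | h
      · rw [h, mul_zero] at hc
        omega
      · exact h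
    have h7 : c < 2 := by
      by_contra h
      have := Nat.mul_le_mul_left N (not_lt.1 h)
      omega
    omega
  rw [h5, mul_one] at hc
  omega

/-- Multiples near one half and near zero. -/
theorem exists_mult {r e u : ℕ} (hr : r.Prime) (hr2 : r ≠ 2) (hu : 0 < u) (huN : u < r ^ e) :
    ∃ t t' j : ℕ, j < e ∧ t.Coprime r ∧ t'.Coprime r ∧ 2 * (t * u % r ^ e) + r ^ j = r ^ e ∧
      t' * u % r ^ e = r ^ j := by
  obtain ⟨j, u₀, hu₀, rfl⟩ := Nat.exists_eq_pow_mul_and_not_dvd hu.ne' r hr.ne_one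
  have hje : j < e := by
    by_contra h
    have h1 : r ^ e ≤ r ^ j := Nat.pow_le_pow_right hr.pos (not_lt.1 h)
    have h2 : 0 < u₀ := Nat.pos_of_ne_zero fun h => hu₀ (h ▸ dvd_zero r)
    have h3 : r ^ j ≤ r ^ j * u₀ := Nat.le_mul_of_pos_right _ h2
    omega
  have hodd : Odd r := hr.odd_of_ne_two hr2
  have hcop : (2 * u₀).Coprime (r ^ e) := by
    refine Nat.Coprime.pow_right e ?_
    refine Nat.Coprime.mul_left ?_ ?_
    · exact (Nat.coprime_primes Nat.prime_two hr).2 (Ne.symm hr2)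
    · exact ((Nat.Prime.coprime_iff_not_dvd hr).2 hu₀).symm
  have hN1 : 1 < r ^ e := Nat.one_lt_pow (by omega) hr.one_lt
  have hrN : r ∣ r ^ e := dvd_pow_self r (by omega)
  obtain ⟨y, hy⟩ := Nat.exists_mul_mod_eq_one_of_coprime hcop hN1
  have hjN : r ^ j < r ^ e := Nat.pow_lt_pow_right hr.one_lt hje
  set N := r ^ e with hN
  have hw := Nat.div_add_mod (2 * u₀ * y) N
  rw [hy.2] at hw
  set w := 2 * u₀ * y / N with hwd
  have hry : ¬ r ∣ y := by
    intro h
    have h1 : r ∣ N * w + 1 := by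
      rw [hw]
      exact h.mul_left _
    have h2 : r ∣ 1 := (Nat.dvd_add_right (hrN.mul_right w)).1 h1
    exact hr.one_lt.ne' (Nat.dvd_one.1 h2)
  have hrN1 : ¬ r ∣ N - 1 := by
    intro h
    have h1 : r ∣ (N - 1) + 1 := by
      rw [Nat.sub_add_cancel hN1.le]
      exact hrN
    have h2 : r ∣ 1 := (Nat.dvd_add_right h).1 h1
    exact hr.one_lt.ne' (Nat.dvd_one.1 h2)
  have hr2' : ¬ r ∣ 2 := fun h => hr2 ((Nat.prime_dvd_prime_iff_eq hr Nat.prime_two).1 h)
  refine ⟨(N - 1) * y, 2 * y, j, hje, ?_, ?_, ?_, ?_⟩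
  · refine ((Nat.Prime.coprime_iff_not_dvd hr).2 fun h => ?_).symm
    rcases (Nat.Prime.dvd_mul hr).1 h with h | h
    · exact hrN1 h
    · exact hry h
  · refine ((Nat.Prime.coprime_iff_not_dvd hr).2 fun h => ?_).symm
    rcases (Nat.Prime.dvd_mul hr).1 h with h | h
    · exact hr2' h
    · exact hry h
  · set x := (N - 1) * y * (r ^ j * u₀) with hx
    have h1 : N ∣ 2 * x + r ^ j := by
      have h2 : 2 * x + r ^ j = N * (r ^ j * (1 + w * (N - 1))) := by
        have h3 : (N - 1) + 1 = N := Nat.sub_add_cancel hN1.le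
        calc 2 * x + r ^ j = r ^ j * ((N - 1) * (2 * u₀ * y) + 1) := by rw [hx]; ring
          _ = r ^ j * ((N - 1) * (N * w + 1) + 1) := by rw [hw]
          _ = r ^ j * (N * w * (N - 1) + ((N - 1) + 1)) := by ring
          _ = r ^ j * (N * w * (N - 1) + N) := by rw [h3]
          _ = N * (r ^ j * (1 + w * (N - 1))) := by ring
      exact ⟨_, h2⟩
    have h2 : N ∣ 2 * (x % N) + r ^ j := by
      have h3 := Nat.div_add_mod x N
      have h4 : 2 * x + r ^ j = N * (2 * (x / N)) + (2 * (x % N) + r ^ j) := by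
        conv_lhs => rw [← h3]
        ring
      rw [h4] at h1
      exact (Nat.dvd_add_right (dvd_mul_right N _)).1 h1
    obtain ⟨c, hc⟩ := h2
    have h3 := Nat.mod_lt x (by omega : 0 < N)
    have h4 : 0 < r ^ j := pow_pos hr.pos j
    have h5 : Odd (r ^ j) := hodd.pow
    have h6 : Odd N := by rw [hN]; exact hodd.pow
    have h7 : 0 < c := by
      rcases Nat.eq_zero_or_pos c with h | h
      · rw [h, mul_zero] at hc
        omega
      · exact h
    have h8 : c < 3 := by
      by_contra h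
      have := Nat.mul_le_mul_left N (not_lt.1 h)
      omega
    have h9 : c ≠ 2 := by
      rintro rfl
      obtain ⟨d, hd⟩ := h5
      omega
    have h10 : c = 1 := by omega
    rw [h10, mul_one] at hc
    exact hc
  · have h1 : 2 * y * (r ^ j * u₀) = N * (r ^ j * w) + r ^ j := by
      calc 2 * y * (r ^ j * u₀) = r ^ j * (2 * u₀ * y) := by ring
        _ = r ^ j * (N * w + 1) := by rw [hw]
        _ = _ := by ring
    rw [h1, Nat.mul_add_mod, Nat.mod_eq_of_lt hjN]

theorem coprime_mod_pos {r e u t : ℕ} (ht : t.Coprime r) (hu : 0 < u)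
    (huN : u < r ^ e) : t * u % r ^ e ≠ 0 := by
  intro h
  have h1 : r ^ e ∣ t * u := Nat.dvd_of_mod_eq_zero h
  have h2 : (r ^ e).Coprime t := (Nat.Coprime.pow_right e ht).symm
  have h3 := Nat.le_of_dvd hu (h2.dvd_of_dvd_mul_left h1)
  omega

/-- The inequality for the sum of the inverses. -/
theorem sum_le {r : ℕ} (ha : ∀ k, 1 < a k) (hr : 2 * ∏ k, a k < r)
    (hsum : ∑ k, (1 / a k : ℚ) < 1 / 2) : 2 * ∑ k, (1 / a k : ℚ) + 1 / r < 1 := by
  classical
  have hA : 0 < ∏ k, a k := Finset.prod_pos fun k _ => by have := ha k; omega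
  have h1 : ((∏ k, a k : ℕ) : ℚ) * ∑ k, (1 / a k : ℚ) =
      ((∑ k, ∏ l ∈ Finset.univ.erase k, a l : ℕ) : ℚ) := by
    rw [Finset.mul_sum]
    push_cast
    refine Finset.sum_congr rfl fun k _ => ?_
    rw [← Finset.mul_prod_erase _ _ (Finset.mem_univ k)]
    have h0 : (a k : ℚ) ≠ 0 := by
      have := ha k
      exact_mod_cast (by omega : a k ≠ 0)
    field_simp
  set A := ∏ k, a k with hAd
  set P := ∑ k, ∏ l ∈ Finset.univ.erase k, a l with hP
  have hA' : (0 : ℚ) < A := by exact_mod_cast hA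
  have h2 : (2 : ℚ) * P < A := by
    rw [← h1]
    nlinarith
  have h3 : 2 * P < A := by exact_mod_cast h2
  have h4 : 2 * P + 1 ≤ A := h3
  have h5 : (2 : ℚ) * P + 1 ≤ A := by exact_mod_cast h4
  have h6 : 2 * ∑ k, (1 / a k : ℚ) + 1 / A ≤ 1 := by
    have h7 : (A : ℚ) * (2 * ∑ k, (1 / a k : ℚ) + 1 / A) ≤ A * 1 := by
      rw [mul_add, mul_one_div_cancel hA'.ne']
      linarith
    exact le_of_mul_le_mul_left h7 hA'
  have h8 : (1 : ℚ) / r < 1 / A := by
    apply one_div_lt_one_div_of_lt hA'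
    exact_mod_cast (by omega : A < r)
  linarith

/-- **The numbers of `w ^ (r ^ e) = f`.** -/
theorem meet_spec {r e : ℕ} (hr : r.Prime) (ha : ∀ k, 1 < a k)
    (hg : 2 < ∏ k, (a k - 1)) (hra : 2 * ∏ k, a k < r) (hsum : ∑ k, (1 / a k : ℚ) < 1 / 2) :
    (∀ (u u' : ℕ) (q q' : ℤ), 0 < u → u < r ^ e → 0 < u' → u' < r ^ e → (q = 0 ∨ q = m) →
      (q' = 0 ∨ q' = m) → ∃ t : ℕ, t.Coprime r ∧ 0 < spec a (r ^ e) (t * u % r ^ e) q ∧
        0 < spec a (r ^ e) (t * u' % r ^ e) q') ∧
    ∀ (u : ℕ) (q : ℤ), 0 < u → u < r ^ e → (q = 0 ∨ q = m) →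
      ∃ t : ℕ, t.Coprime r ∧ 2 ≤ spec a (r ^ e) (t * u % r ^ e) q := by
  classical
  have hm : 0 < m := by
    rcases Nat.eq_zero_or_pos m with h | h
    · subst h
      simp at hg
    · exact h
  have hle := sum_le a ha hra hsum
  have h0 : 0 ≤ ∑ k, (1 / a k : ℚ) := Finset.sum_nonneg fun k _ => by positivity
  have hr0 : (0 : ℚ) < r := by exact_mod_cast hr.pos
  have hA : ∀ k, a k ≤ ∏ k, a k := fun k => Nat.le_of_dvd
    (Finset.prod_pos fun k _ => by have := ha k; omega) (Finset.dvd_prod_of_mem a (Finset.mem_univ k))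
  have hra' : ∀ k, ¬ r ∣ a k := by
    intro k h
    have h1 := Nat.le_of_dvd (by have := ha k; omega) h
    have h2 := hA k
    omega
  have hr2 : r ≠ 2 := by
    have h1 := hA ⟨0, hm⟩
    have h2 := ha ⟨0, hm⟩
    omega
  have ha2 : ∀ k, 2 < a k := by
    intro k
    have h1 : (1 : ℚ) / a k ≤ ∑ k, (1 / a k : ℚ) :=
      Finset.single_le_sum (f := fun k => (1 : ℚ) / a k) (fun k _ => by positivity) (Finset.mem_univ k)
    have h2 : (1 : ℚ) / a k < 1 / 2 := h1.trans_lt hsum
    have h3 : (0 : ℚ) < a k := by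
      have := ha k
      exact_mod_cast (by omega : 0 < a k)
    have h4 := (one_div_lt_one_div h3 (by norm_num)).1 h2
    exact_mod_cast h4
  have hNpos : 0 < r ^ e := pow_pos hr.pos e
  have hN0 : (0 : ℚ) < ((r ^ e : ℕ) : ℚ) := by exact_mod_cast hNpos
  have hNodd : e ≠ 0 → Odd (r ^ e) := fun _ => (hr.odd_of_ne_two hr2).pow
  have hsmall : ∀ j, j < e → ((r ^ j : ℕ) : ℚ) / (r ^ e : ℕ) ≤ 1 / r := by
    intro j hj
    rw [div_le_div_iff₀ hN0 hr0, one_mul]
    have h1 : r ^ j * r ≤ r ^ e := by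
      rw [← pow_succ]
      exact Nat.pow_le_pow_right hr.pos hj
    exact_mod_cast h1
  have hz : ∀ s, 2 * s < r ^ e → 0 < spec a (r ^ e) s 0 := by
    intro s hs
    refine spec_zero_pos a ha _ _ ?_
    have h1 : (s : ℚ) / (r ^ e : ℕ) < 1 / 2 := by
      rw [div_lt_div_iff₀ hN0 (by norm_num), one_mul]
      have h2 : s * 2 < r ^ e := by omega
      exact_mod_cast h2
    linarith
  have ht : ∀ s, s < r ^ e → r ^ e < 2 * s → 0 < spec a (r ^ e) s m := by
    intro s hs1 hs
    refine spec_top_pos a ha _ _ hs1 ?_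
    have h1 : 1 / 2 < (s : ℚ) / (r ^ e : ℕ) := by
      rw [div_lt_div_iff₀ (by norm_num) hN0, one_mul]
      have h2 : r ^ e < s * 2 := by omega
      exact_mod_cast h2
    linarith
  constructor
  · intro u u' q q' hu huN hu' huN' hq hq'
    obtain ⟨t, -, j, hj, htc, -, hs, -⟩ := exists_mult hr hr2 hu huN
    set N := r ^ e with hN
    set s := t * u % N with hsd
    have hj0 : 0 < r ^ j := pow_pos hr.pos j
    have hs0 : t * u % N ≠ 0 := coprime_mod_pos htc hu huN
    have hs0' : t * u' % N ≠ 0 := coprime_mod_pos htc hu' huN'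
    have hsN : s < N := Nat.mod_lt _ hNpos
    have hs'N : t * u' % N < N := Nat.mod_lt _ hNpos
    have hq1 : (s : ℚ) / N + ((r ^ j : ℕ) : ℚ) / N / 2 = 1 / 2 := by
      have h1 : (2 : ℚ) * s + ((r ^ j : ℕ) : ℚ) = (N : ℕ) := by exact_mod_cast hs
      field_simp
      linarith
    have hjs := hsmall j hj
    -- both signs are good for `u`
    have g1 : 0 < spec a N s q := by
      rcases hq with rfl | rfl
      · exact hz s (by omega)
      · exact spec_top_pos a ha _ _ hsN (by linarith)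
    have hsub : ((N - s : ℕ) : ℚ) / N = 1 - s / N := by
      rw [Nat.cast_sub hsN.le, sub_div, div_self hN0.ne']
    have g2 : 0 < spec a N (N - s) q := by
      rcases hq with rfl | rfl
      · refine spec_zero_pos a ha _ _ ?_
        rw [hsub]
        linarith
      · refine ht _ (by omega) (by omega)
    have hNo : Odd N := by
      rw [hN]
      exact hNodd (by omega)
    have hneg : ((N - 1) * t).Coprime r := by
      refine Nat.Coprime.mul_left ?_ htc
      have h1 : Nat.Coprime (N - 1) N := by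
        have h2 : Nat.Coprime (N - 1) ((N - 1) + 1) := by simp
        rwa [Nat.sub_add_cancel hNpos] at h2
      exact h1.coprime_dvd_right (dvd_pow_self r (by omega))
    have e1 : (N - 1) * t * u % N = N - s := by rw [mul_assoc, neg_mod hNpos hs0]
    have e2 : (N - 1) * t * u' % N = N - t * u' % N := by rw [mul_assoc, neg_mod hNpos hs0']
    set s' := t * u' % N with hs'd
    have hne : 2 * s' ≠ N := by
      intro h
      rw [← h] at hNo
      exact (Nat.not_odd_iff_even.2 (even_two_mul s')) hNo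
    rcases lt_or_gt_of_ne hne with h | h
    · rcases hq' with rfl | rfl
      · exact ⟨t, htc, g1, hz s' h⟩
      · refine ⟨(N - 1) * t, hneg, by rw [e1]; exact g2, ?_⟩
        rw [e2]
        exact ht _ (by omega) (by omega)
    · rcases hq' with rfl | rfl
      · refine ⟨(N - 1) * t, hneg, by rw [e1]; exact g2, ?_⟩
        rw [e2]
        exact hz _ (by omega)
      · exact ⟨t, htc, g1, ht s' hs'N h⟩
  · intro u q hu huN hq
    obtain ⟨-, t, j, hj, -, htc, -, hs⟩ := exists_mult hr hr2 hu huN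
    have hj0 : 0 < r ^ j := pow_pos hr.pos j
    have hjN : r ^ j < r ^ e := Nat.pow_lt_pow_right hr.one_lt hj
    have hjs := hsmall j hj
    have h2 : 2 ≤ spec a (r ^ e) (r ^ j) 0 := spec_zero_two a ha2 hm _ _ (by linarith)
    rcases hq with rfl | rfl
    · exact ⟨t, htc, by rw [hs]; exact h2⟩
    · refine ⟨(r ^ e - 1) * t, ?_, ?_⟩
      · refine Nat.Coprime.mul_left ?_ htc
        have h1 : Nat.Coprime (r ^ e - 1) (r ^ e) := by
          have h2 : Nat.Coprime (r ^ e - 1) ((r ^ e - 1) + 1) := by simp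
          rwa [Nat.sub_add_cancel hNpos] at h2
        exact h1.coprime_dvd_right (dvd_pow_self r (by omega))
      · rw [mul_assoc, neg_mod hNpos (by rw [hs]; exact hj0.ne'), hs]
        have h3 := spec_symm a ha r e hr hra' (r ^ j) hj0 hjN 0
        rw [sub_zero] at h3
        rw [h3]
        exact h2

end Pool.Agent.Helper21.KG
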