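import Pool.Agent.Helper21.KG.Pigeon

/-!
# The numbers `spec`: `k` eigenspaces with `k` parts of top slope at the same time (project K'')
-/

set_option autoImplicit false

namespace Pool.Agent.Helper21.KG

open Pool.Agent.Helper79.KN

variable {m : ℕ} (a : Fin m → ℕ)

theorem spec_zero_le (hm : 0 < m) {k : ℕ} (hk : 0 < k) (ha : ∀ j, 2 * m * k ^ 2 < a j) (N s : ℕ)
    (hN : 0 < N) (hs : s * (2 * k) + N ≤ N * (2 * k)) : k ≤ spec a N s 0 := by
  classical
  let j₀ : Fin m := ⟨0, hm⟩
  have hmq : (0 : ℚ) < m := by exact_mod_cast hm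
  have hkq : (0 : ℚ) < k := by exact_mod_cast hk
  have hNq : (0 : ℚ) < N := by exact_mod_cast hN
  have hA : (0 : ℚ) < 2 * m * k ^ 2 := by positivity
  have ha' : ∀ j, (2 * m * k ^ 2 : ℚ) < a j := fun j => by exact_mod_cast ha j
  have h1 : ∀ j, (1 : ℚ) / a j < 1 / (2 * m * k ^ 2) := fun j => one_div_lt_one_div_of_lt hA (ha' j)
  have h2 : ∑ j, (1 : ℚ) / a j < 1 / (2 * k ^ 2) := by
    have h3 : ∑ j : Fin m, (1 : ℚ) / a j < ∑ _j : Fin m, (1 : ℚ) / (2 * m * k ^ 2) :=
      Finset.sum_lt_sum_of_nonempty ⟨j₀, Finset.mem_univ _⟩ fun j _ => h1 j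
    rw [Finset.sum_const, Finset.card_univ, Fintype.card_fin, nsmul_eq_mul] at h3
    have h4 : (m : ℚ) * (1 / (2 * m * k ^ 2)) = 1 / (2 * k ^ 2) := by field_simp
    rwa [h4] at h3
  have h5 : (s : ℚ) / N + 1 / (2 * k) ≤ 1 := by
    rw [div_add_div _ _ hNq.ne' (by positivity), div_le_one (by positivity), mul_one]
    have : ((s * (2 * k) + N : ℕ) : ℚ) ≤ (N * (2 * k) : ℕ) := by exact_mod_cast hs
    push_cast at this
    exact this
  have hsn : (0 : ℚ) ≤ s / N := by positivity
  have h0 : 0 ≤ ∑ j, (1 : ℚ) / a j := Finset.sum_nonneg fun j _ => by positivity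
  unfold spec
  have hcard : (Finset.range k).card = k := Finset.card_range k
  calc k = (Finset.range k).card := hcard.symm
    _ ≤ _ := ?_
  refine Finset.card_le_card_of_injOn (fun c => Function.update (fun _ => 1) j₀ (c + 1)) ?_ ?_
  · intro c hc
    have hc' : c < k := Finset.mem_range.1 hc
    rw [Finset.mem_coe, Finset.mem_filter, Fintype.mem_piFinset, Int.floor_eq_zero_iff, Set.mem_Ico]
    have h4 : ∑ j, ((Function.update (fun _ => 1 : Fin m → ℕ) j₀ (c + 1) j : ℕ) : ℚ) / a j =
        ∑ j, (1 : ℚ) / a j + c / a j₀ := by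
      rw [← Finset.add_sum_erase _ _ (Finset.mem_univ j₀),
        ← Finset.add_sum_erase (a := j₀) _ (fun j => (1 : ℚ) / a j) (Finset.mem_univ j₀),
        Function.update_self]
      have h6 : ∑ j ∈ Finset.univ.erase j₀,
          ((Function.update (fun _ => 1 : Fin m → ℕ) j₀ (c + 1) j : ℕ) : ℚ) / a j =
          ∑ j ∈ Finset.univ.erase j₀, (1 : ℚ) / a j := by
        refine Finset.sum_congr rfl fun j hj => ?_
        rw [Function.update_of_ne (Finset.ne_of_mem_erase hj), Nat.cast_one]
      rw [h6]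
      push_cast
      ring
    have h7 : (c : ℚ) / a j₀ ≤ (k - 1) / (2 * k ^ 2) := by
      have h8 : (c : ℚ) ≤ k - 1 := by
        have : c + 1 ≤ k := hc'
        have : ((c + 1 : ℕ) : ℚ) ≤ k := by exact_mod_cast this
        push_cast at this
        linarith
      have h9 : (0 : ℚ) ≤ k - 1 := le_trans (Nat.cast_nonneg c) h8
      have h10 : (2 * k ^ 2 : ℚ) ≤ a j₀ := by
        have h11 : (1 : ℚ) ≤ m := by exact_mod_cast hm
        have h12 := ha' j₀
        nlinarith [sq_nonneg (k : ℚ)]
      exact div_le_div₀ h9 h8 (by positivity) h10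
    have h13 : (1 : ℚ) / (2 * k ^ 2) + (k - 1) / (2 * k ^ 2) = 1 / (2 * k) := by
      field_simp
      ring
    refine ⟨fun j => Finset.mem_Ioo.2 ?_, ?_, ?_⟩
    · have haj := ha j
      have hk2 : k ≤ 2 * m * k ^ 2 := by nlinarith
      change 0 < Function.update (fun _ => 1 : Fin m → ℕ) j₀ (c + 1) j ∧
        Function.update (fun _ => 1 : Fin m → ℕ) j₀ (c + 1) j < a j
      by_cases hj : j = j₀
      · subst hj
        rw [Function.update_self]
        omega
      · rw [Function.update_of_ne hj]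
        omega
    · rw [h4]
      positivity
    · rw [h4]
      linarith
  · intro c _ c' _ h
    have := congrFun h j₀
    simp only [Function.update_self] at this
    omega

theorem spec_top_le (hm : 0 < m) {k : ℕ} (hk : 0 < k) (ha : ∀ j, 2 * m * k ^ 2 < a j) (N s : ℕ)
    (hsN : s < N) (hs : N ≤ s * (2 * k)) : k ≤ spec a N s m := by
  classical
  have hN : 0 < N := by omega
  let j₀ : Fin m := ⟨0, hm⟩
  have hmq : (0 : ℚ) < m := by exact_mod_cast hm
  have hkq : (0 : ℚ) < k := by exact_mod_cast hk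
  have hNq : (0 : ℚ) < N := by exact_mod_cast hN
  have hA : (0 : ℚ) < 2 * m * k ^ 2 := by positivity
  have ha' : ∀ j, (2 * m * k ^ 2 : ℚ) < a j := fun j => by exact_mod_cast ha j
  have h1 : ∀ j, (1 : ℚ) / a j < 1 / (2 * m * k ^ 2) := fun j => one_div_lt_one_div_of_lt hA (ha' j)
  have h2 : ∑ j, (1 : ℚ) / a j < 1 / (2 * k ^ 2) := by
    have h3 : ∑ j : Fin m, (1 : ℚ) / a j < ∑ _j : Fin m, (1 : ℚ) / (2 * m * k ^ 2) :=
      Finset.sum_lt_sum_of_nonempty ⟨j₀, Finset.mem_univ _⟩ fun j _ => h1 j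
    rw [Finset.sum_const, Finset.card_univ, Fintype.card_fin, nsmul_eq_mul] at h3
    have h4 : (m : ℚ) * (1 / (2 * m * k ^ 2)) = 1 / (2 * k ^ 2) := by field_simp
    rwa [h4] at h3
  have h5 : (1 : ℚ) / (2 * k) ≤ s / N := by
    rw [div_le_div_iff₀ (by positivity) hNq, one_mul]
    exact_mod_cast hs
  have h5' : (s : ℚ) / N < 1 := by
    rw [div_lt_one hNq]
    exact_mod_cast hsN
  have h0 : 0 ≤ ∑ j, (1 : ℚ) / a j := Finset.sum_nonneg fun j _ => by positivity
  have hapos : ∀ j, (0 : ℚ) < a j := fun j => hA.trans (ha' j)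
  unfold spec
  have hcard : (Finset.range k).card = k := Finset.card_range k
  calc k = (Finset.range k).card := hcard.symm
    _ ≤ _ := ?_
  have hk2 : k ≤ 2 * m * k ^ 2 := by nlinarith
  refine Finset.card_le_card_of_injOn
    (fun c => Function.update (fun j => a j - 1) j₀ (a j₀ - (c + 1))) ?_ ?_
  · intro c hc
    have hc' : c < k := Finset.mem_range.1 hc
    have haj₀ := ha j₀
    rw [Finset.mem_coe, Finset.mem_filter, Fintype.mem_piFinset, Int.floor_eq_iff]
    have h4 : ∑ j, ((Function.update (fun j => a j - 1) j₀ (a j₀ - (c + 1)) j : ℕ) : ℚ) / a j =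
        m - ∑ j, (1 : ℚ) / a j - c / a j₀ := by
      have h6 : ∑ j ∈ Finset.univ.erase j₀,
          ((Function.update (fun j => a j - 1) j₀ (a j₀ - (c + 1)) j : ℕ) : ℚ) / a j =
          ∑ j ∈ Finset.univ.erase j₀, (1 - (1 : ℚ) / a j) := by
        refine Finset.sum_congr rfl fun j hj => ?_
        have h7 : 1 ≤ a j := by have := ha j; omega
        rw [Function.update_of_ne (Finset.ne_of_mem_erase hj), Nat.cast_sub h7, Nat.cast_one, sub_div,
          div_self (hapos j).ne']
      have h8 : ∑ j, (1 - (1 : ℚ) / a j) = m - ∑ j, (1 : ℚ) / a j := by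
        rw [Finset.sum_sub_distrib, Finset.sum_const, Finset.card_univ, Fintype.card_fin,
          nsmul_eq_mul, mul_one]
      rw [← Finset.add_sum_erase _ _ (Finset.mem_univ j₀)] at h8
      rw [← Finset.add_sum_erase _ _ (Finset.mem_univ j₀), h6, Function.update_self,
        Nat.cast_sub (by omega : c + 1 ≤ a j₀), sub_div, div_self (hapos j₀).ne']
      push_cast
      rw [add_div]
      linarith
    have h7 : (c : ℚ) / a j₀ ≤ (k - 1) / (2 * k ^ 2) := by
      have h8 : (c : ℚ) ≤ k - 1 := by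
        have : c + 1 ≤ k := hc'
        have : ((c + 1 : ℕ) : ℚ) ≤ k := by exact_mod_cast this
        push_cast at this
        linarith
      have h9 : (0 : ℚ) ≤ k - 1 := le_trans (Nat.cast_nonneg c) h8
      have h10 : (2 * k ^ 2 : ℚ) ≤ a j₀ := by
        have h11 : (1 : ℚ) ≤ m := by exact_mod_cast hm
        have h12 := ha' j₀
        nlinarith [sq_nonneg (k : ℚ)]
      exact div_le_div₀ h9 h8 (by positivity) h10
    have h13 : (1 : ℚ) / (2 * k ^ 2) + (k - 1) / (2 * k ^ 2) = 1 / (2 * k) := by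
      field_simp
      ring
    have h14 : (0 : ℚ) ≤ c / a j₀ := by positivity
    refine ⟨fun j => Finset.mem_Ioo.2 ?_, ?_, ?_⟩
    · have haj := ha j
      change 0 < Function.update (fun j => a j - 1) j₀ (a j₀ - (c + 1)) j ∧
        Function.update (fun j => a j - 1) j₀ (a j₀ - (c + 1)) j < a j
      by_cases hj : j = j₀
      · subst hj
        rw [Function.update_self]
        omega
      · rw [Function.update_of_ne hj]
        omega
    · rw [h4]
      push_cast
      linarith
    · rw [h4]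
      push_cast
      linarith
  · intro c hc c' hc' h
    have h1 := congrFun h j₀
    have hc1 : c < k := Finset.mem_range.1 hc
    have hc2 : c' < k := Finset.mem_range.1 hc'
    have haj₀ := ha j₀
    simp only [Function.update_self] at h1
    omega

/-- The number of bad `t` for one label. -/
theorem bad_card {r e u k : ℕ} (hr : r.Prime) (hk : 0 < k) (hu : 0 < u) (huN : u < r ^ e) :
    ((Finset.range (r ^ e)).filter fun t => 2 * k * (r ^ e - t * u % r ^ e) < r ^ e).card * (2 * k) <
      r ^ e ∧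
    ((Finset.range (r ^ e)).filter fun t => 0 < t * u % r ^ e ∧
      2 * k * (t * u % r ^ e) < r ^ e).card * (2 * k) < r ^ e := by
  classical
  obtain ⟨j, u₀, hu₀, rfl⟩ := Nat.exists_eq_pow_mul_and_not_dvd hu.ne' r hr.ne_one
  have hje : j < e := by
    by_contra h
    have h1 : r ^ e ≤ r ^ j := Nat.pow_le_pow_right hr.pos (not_lt.1 h)
    have h2 : 0 < u₀ := Nat.pos_of_ne_zero fun h => hu₀ (h ▸ dvd_zero r)
    have h3 : r ^ j ≤ r ^ j * u₀ := Nat.le_mul_of_pos_right _ h2
    omega
  obtain ⟨d, rfl⟩ := Nat.exists_eq_add_of_lt hje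
  set R := r ^ (d + 1) with hR
  have hRpos : 0 < R := pow_pos hr.pos _
  have hjpos : 0 < r ^ j := pow_pos hr.pos _
  have hN : r ^ (j + d + 1) = r ^ j * R := by rw [hR, ← pow_add, add_assoc]
  have hmod : ∀ t, t * (r ^ j * u₀) % (r ^ j * R) = r ^ j * (t * u₀ % R) := by
    intro t
    rw [show t * (r ^ j * u₀) = r ^ j * (t * u₀) by ring, Nat.mul_mod_mul_left]
  have hcop : R.Coprime u₀ := by
    rw [hR]
    exact Nat.Coprime.pow_left _ ((Nat.Prime.coprime_iff_not_dvd hr).2 hu₀)
  -- the fibres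
  have key : ∀ (B : Finset ℕ) (S : Finset ℕ), S ⊆ Finset.range (r ^ j * R) →
      (∀ t ∈ S, t * u₀ % R ∈ B) → S.card ≤ r ^ j * B.card := by
    intro B S hS hB
    have h1 : (Finset.range (r ^ j) ×ˢ B).card = r ^ j * B.card := by
      rw [Finset.card_product, Finset.card_range]
    rw [← h1]
    refine Finset.card_le_card_of_injOn (fun t => (t / R, t * u₀ % R)) ?_ ?_
    · intro t ht
      have h2 := Finset.mem_range.1 (hS ht)
      rw [Finset.mem_coe, Finset.mem_product]
      refine ⟨Finset.mem_range.2 ?_, hB t ht⟩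
      rw [Nat.div_lt_iff_lt_mul hRpos]
      exact h2
    · intro t _ t' _ h
      rw [Prod.mk.injEq] at h
      have h2 : t * u₀ ≡ t' * u₀ [MOD R] := h.2
      have h3 : t ≡ t' [MOD R] := Nat.ModEq.cancel_right_of_coprime hcop h2
      have h4 : t % R = t' % R := h3
      rw [← Nat.div_add_mod t R, ← Nat.div_add_mod t' R, h.1, h4]
  have h2k : 0 < 2 * k := by omega
  have hfin : ∀ B : Finset ℕ, B.card ≤ (R - 1) / (2 * k) → r ^ j * B.card * (2 * k) < r ^ j * R := by
    intro B hB
    rw [mul_assoc]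
    refine Nat.mul_lt_mul_of_pos_left ?_ hjpos
    have h1 := (Nat.mul_le_mul_right (2 * k) hB).trans (Nat.div_mul_le_self (R - 1) _)
    omega
  rw [hN]
  constructor
  · set S := (Finset.range (r ^ j * R)).filter fun t =>
      2 * k * (r ^ j * R - t * (r ^ j * u₀) % (r ^ j * R)) < r ^ j * R with hS
    let B := (Finset.range R).filter fun v => 2 * k * (R - v) < R
    have h1 : S.card ≤ r ^ j * B.card := by
      refine key B S (Finset.filter_subset _ _) ?_
      intro t ht
      rw [hS, Finset.mem_filter, hmod, ← Nat.mul_sub, mul_left_comm] at ht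
      rw [Finset.mem_filter]
      exact ⟨Finset.mem_range.2 (Nat.mod_lt _ hRpos), Nat.lt_of_mul_lt_mul_left ht.2⟩
    have h2 : B.card ≤ (R - 1) / (2 * k) := by
      have h3 : (Finset.Icc 1 ((R - 1) / (2 * k))).card = (R - 1) / (2 * k) := by
        rw [Nat.card_Icc, Nat.add_sub_cancel]
      rw [← h3]
      refine Finset.card_le_card_of_injOn (fun v => R - v) ?_ ?_
      · intro v hv
        rw [Finset.mem_coe, Finset.mem_filter, Finset.mem_range] at hv
        rw [Finset.mem_coe, Finset.mem_Icc]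
        change 1 ≤ R - v ∧ R - v ≤ (R - 1) / (2 * k)
        refine ⟨Nat.sub_pos_of_lt hv.1, ?_⟩
        rw [Nat.le_div_iff_mul_le h2k, mul_comm]
        exact Nat.le_sub_one_of_lt hv.2
      · intro v hv v' hv' h
        rw [Finset.mem_coe, Finset.mem_filter, Finset.mem_range] at hv hv'
        have h4 : R - v = R - v' := h
        omega
    exact (Nat.mul_le_mul_right _ h1).trans_lt (hfin B h2)
  · set S := (Finset.range (r ^ j * R)).filter fun t => 0 < t * (r ^ j * u₀) % (r ^ j * R) ∧
      2 * k * (t * (r ^ j * u₀) % (r ^ j * R)) < r ^ j * R with hS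
    let B := (Finset.range R).filter fun v => 0 < v ∧ 2 * k * v < R
    have h1 : S.card ≤ r ^ j * B.card := by
      refine key B S (Finset.filter_subset _ _) ?_
      intro t ht
      rw [hS, Finset.mem_filter, hmod, mul_left_comm (2 * k)] at ht
      rw [Finset.mem_filter]
      refine ⟨Finset.mem_range.2 (Nat.mod_lt _ hRpos), ?_, Nat.lt_of_mul_lt_mul_left ht.2.2⟩
      exact Nat.pos_of_mul_pos_left ht.2.1
    have h2 : B.card ≤ (R - 1) / (2 * k) := by
      have h3 : (Finset.Icc 1 ((R - 1) / (2 * k))).card = (R - 1) / (2 * k) := by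
        rw [Nat.card_Icc, Nat.add_sub_cancel]
      rw [← h3]
      refine Finset.card_le_card ?_
      intro v hv
      rw [Finset.mem_filter] at hv
      rw [Finset.mem_Icc]
      refine ⟨hv.2.1, ?_⟩
      rw [Nat.le_div_iff_mul_le h2k, mul_comm]
      exact Nat.le_sub_one_of_lt hv.2.2
    exact (Nat.mul_le_mul_right _ h1).trans_lt (hfin B h2)

/-- The number of multiples of `r`. -/
theorem mult_card {r e : ℕ} (hr : r.Prime) (he : 0 < e) :
    ((Finset.range (r ^ e)).filter fun t => r ∣ t).card * r ≤ r ^ e := by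
  classical
  obtain ⟨d, rfl⟩ : ∃ d, e = d + 1 := ⟨e - 1, by omega⟩
  have h1 : ((Finset.range (r ^ (d + 1))).filter fun t => r ∣ t).card ≤ (Finset.range (r ^ d)).card := by
    refine Finset.card_le_card_of_injOn (fun t => t / r) ?_ ?_
    · intro t ht
      rw [Finset.mem_coe, Finset.mem_filter, Finset.mem_range] at ht
      rw [Finset.mem_coe, Finset.mem_range, Nat.div_lt_iff_lt_mul hr.pos, ← pow_succ]
      exact ht.1
    · intro t ht t' ht' h
      rw [Finset.mem_coe, Finset.mem_filter, Finset.mem_range] at ht ht'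
      have h2 : t / r = t' / r := h
      rw [← Nat.mul_div_cancel' ht.2, ← Nat.mul_div_cancel' ht'.2, h2]
  rw [Finset.card_range] at h1
  rw [pow_succ]
  exact Nat.mul_le_mul_right _ h1

/-- **Union bound.** -/
theorem exists_common {r e k : ℕ} (hr : r.Prime) (he : 0 < e) (hk : 0 < k)
    (u : Fin k → ℕ) (b : Fin k → Bool) (hu : ∀ i, 0 < u i) (huN : ∀ i, u i < r ^ e) :
    ∃ t : ℕ, t.Coprime r ∧ ∀ i, r ^ e ≤ 2 * k *
      (if b i then r ^ e - t * u i % r ^ e else t * u i % r ^ e) := by
  classical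
  set N := r ^ e with hN
  have hNpos : 0 < N := pow_pos hr.pos e
  let Bad : Fin k → Finset ℕ := fun i => if b i then
    (Finset.range N).filter fun t => 2 * k * (N - t * u i % N) < N else
    (Finset.range N).filter fun t => 0 < t * u i % N ∧ 2 * k * (t * u i % N) < N
  have hBad : ∀ i, (Bad i).card * (2 * k) < N := by
    intro i
    obtain ⟨h1, h2⟩ := bad_card (k := k) hr hk (hu i) (huN i)
    by_cases hb : b i = true
    · simp only [Bad, hb, if_true]
      exact h1
    · simp only [Bad, hb]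
      exact h2
  let M := (Finset.range N).filter fun t => r ∣ t
  have hM : M.card * r ≤ N := mult_card hr he
  have hU : (Finset.univ.biUnion Bad ∪ M).card < N := by
    have h1 : (Finset.univ.biUnion Bad ∪ M).card ≤ (Finset.univ.biUnion Bad).card + M.card :=
      Finset.card_union_le _ _
    have h2 : (Finset.univ.biUnion Bad).card ≤ ∑ i, (Bad i).card := Finset.card_biUnion_le
    have h3 : (∑ i, (Bad i).card) * (2 * k) < k * N := by
      rw [Finset.sum_mul]
      have hne : (Finset.univ : Finset (Fin k)).Nonempty := ⟨⟨0, hk⟩, Finset.mem_univ _⟩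
      calc ∑ i, (Bad i).card * (2 * k) < ∑ _i : Fin k, N :=
            Finset.sum_lt_sum_of_nonempty hne fun i _ => hBad i
        _ = k * N := by rw [Finset.sum_const, Finset.card_univ, Fintype.card_fin, smul_eq_mul]
    have h4 : (∑ i, (Bad i).card) * 2 < N := by
      have h5 : k * ((∑ i, (Bad i).card) * 2) < k * N := by
        calc k * ((∑ i, (Bad i).card) * 2) = (∑ i, (Bad i).card) * (2 * k) := by ring
          _ < k * N := h3
      exact Nat.lt_of_mul_lt_mul_left h5
    have h6 : M.card * 2 ≤ N := (Nat.mul_le_mul_left _ hr.two_le).trans hM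
    omega
  obtain ⟨t, ht, htn⟩ : ∃ t ∈ Finset.range N, t ∉ Finset.univ.biUnion Bad ∪ M := by
    by_contra h
    push Not at h
    have h1 : Finset.range N ⊆ Finset.univ.biUnion Bad ∪ M := h
    have h2 := Finset.card_le_card h1
    rw [Finset.card_range] at h2
    omega
  rw [Finset.mem_union, not_or, Finset.mem_biUnion, Finset.mem_filter] at htn
  obtain ⟨h1, h2⟩ := htn
  have htr : ¬ r ∣ t := fun h => h2 ⟨ht, h⟩
  have htc : t.Coprime r := ((Nat.Prime.coprime_iff_not_dvd hr).2 htr).symm
  refine ⟨t, htc, fun i => ?_⟩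
  have h3 : t ∉ Bad i := fun h => h1 ⟨i, Finset.mem_univ i, h⟩
  have h4 : t * u i % N ≠ 0 := coprime_mod_pos htc (hu i) (huN i)
  by_cases hb : b i = true
  · simp only [Bad, hb, if_true, Finset.mem_filter, not_and, not_lt] at h3
    rw [if_pos hb]
    exact h3 ht
  · simp only [Bad, hb] at h3
    rw [if_neg hb]
    by_contra h
    apply h3
    rw [if_neg (by simp), Finset.mem_filter]
    exact ⟨ht, Nat.pos_of_ne_zero h4, not_le.1 h⟩

/-- **The numbers for tensor powers.** -/
theorem meet_pow (hm : 0 < m) {r e k : ℕ} (hr : r.Prime) (he : 0 < e) (hk : 0 < k)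
    (ha : ∀ j, 2 * m * k ^ 2 < a j)
    (u : Fin k → ℕ) (b : Fin k → Bool) (hu : ∀ i, 0 < u i) (huN : ∀ i, u i < r ^ e) :
    ∃ t : ℕ, t.Coprime r ∧ ∀ i, k ≤ spec a (r ^ e) (t * u i % r ^ e) (if b i then (0 : ℤ) else m) := by
  obtain ⟨t, htc, ht⟩ := exists_common hr he hk u b hu huN
  refine ⟨t, htc, fun i => ?_⟩
  have hNpos : 0 < r ^ e := pow_pos hr.pos e
  have h1 := ht i
  have h2 : t * u i % r ^ e < r ^ e := Nat.mod_lt _ hNpos
  set N := r ^ e with hN
  set s := t * u i % N with hs
  by_cases hb : b i = true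
  · rw [if_pos hb] at h1 ⊢
    refine spec_zero_le a hm hk ha N s hNpos ?_
    obtain ⟨d, hd⟩ := Nat.exists_eq_add_of_lt h2
    rw [hd] at h1 ⊢
    rw [show s + d + 1 - s = d + 1 by omega] at h1
    nlinarith
  · rw [if_neg hb] at h1 ⊢
    refine spec_top_le a hm hk ha N s h2 ?_
    rw [mul_comm]
    exact h1

end Pool.Agent.Helper21.KG
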